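import Pool.Agent.P.MP_d06606_an.U.Slice
import Pool.Agent.P.MP_d06606_an.Ek

namespace Pool.Agent.P.MP_d06606_an.U

open Filter Topology Set

universe u

variable {X : Type u} [NormedAddCommGroup X] [NormedSpace ℝ X]

theorem norm_le_of_sphere (q : X →L[ℝ] ℝ) {ρ c : ℝ} (hρ : 0 < ρ) (hc : 0 ≤ c)
    (h : ∀ v, ‖v‖ = ρ → q v ≤ c * ρ) : ‖q‖ ≤ c := by
  refine q.opNorm_le_bound hc fun v => ?_
  by_cases h0 : v = 0
  · simp [h0]
  have hn : 0 < ‖v‖ := norm_pos_iff.2 h0
  have n1 : ‖(ρ / ‖v‖) • v‖ = ρ := by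
    rw [norm_smul, Real.norm_eq_abs, abs_of_pos (by positivity)]; field_simp
  have a := h _ n1
  have b := h (-((ρ / ‖v‖) • v)) (by rw [norm_neg, n1])
  rw [map_neg] at b
  rw [map_smul, smul_eq_mul] at a b
  have e : |ρ / ‖v‖ * q v| ≤ c * ρ := abs_le.2 ⟨by linarith, a⟩
  rw [abs_mul, abs_of_pos (by positivity), div_mul_eq_mul_div, div_le_iff₀ hn] at e
  rw [Real.norm_eq_abs]
  nlinarith

section
variable {K : Type u} [TopologicalSpace K] [CompactSpace K] {ev : K → X →L[ℝ] ℝ}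

/-- the argument of Smulyan -/
theorem dent_of_diff (hev : ∀ x, Continuous fun k => ev k x) (hb : ∀ k h, |ev k h| ≤ ‖h‖)
    (H : ∀ f : X → ℝ, ConvexOn ℝ univ f → Continuous f → ∃ x, DifferentiableAt ℝ f x) :
    Dent ev := by
  intro D hD hne ε hε
  have hl : ∀ y z, |sg ev D y - sg ev D z| ≤ ‖y - z‖ := fun y z => by
    simpa using sg_lip hev hD hne (ξ := 0) (d := 1) (fun k _ z => by simpa using hb k z) y z
  have hc : Continuous (sg ev D) := (LipschitzWith.of_dist_le_mul (K := 1) fun y z => by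
    simpa [Real.dist_eq, dist_eq_norm] using hl y z).continuous
  have hcv : ConvexOn ℝ univ (sg ev D) := ⟨convex_univ, fun y _ z _ a b ha hb' _ => by
    obtain ⟨k, hk, h, -⟩ := sg_spec hev hD hne (a • y + b • z)
    rw [h, map_add, map_smul, map_smul]
    exact add_le_add (smul_le_smul_of_nonneg_left (le_sg hev hD hk y) ha)
      (smul_le_smul_of_nonneg_left (le_sg hev hD hk z) hb')⟩
  obtain ⟨x, hx⟩ := H _ hcv hc
  set p := fderiv ℝ (sg ev D) x
  have h3 := (hasFDerivAt_iff_isLittleO_nhds_zero.1 hx.hasFDerivAt).def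
    (show 0 < ε / 4 by linarith)
  obtain ⟨ρ, hρ, h4⟩ := Metric.eventually_nhds_iff.1 h3
  have key : ∀ k ∈ D, sg ev D x - ε / 4 * (ρ / 2) ≤ ev k x → ‖ev k - p‖ ≤ ε / 2 := by
    intro k hk hk'
    refine norm_le_of_sphere _ (show 0 < ρ / 2 by linarith) (by linarith) fun h hh => ?_
    have a := h4 (y := h) (by simp only [dist_zero_right]; linarith)
    have d := le_sg hev hD hk (x + h)
    rw [map_add] at d
    rw [Real.norm_eq_abs, hh] at a
    have e := (abs_le.1 a).2
    simp only [sub_apply]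
    linarith
  refine ⟨x, ε / 4 * (ρ / 2), by positivity, fun k hk k' hk' a b h => ?_⟩
  have c : ‖ev k - ev k'‖ ≤ ε := by
    have := norm_sub_le (ev k - p) (ev k' - p)
    rw [sub_sub_sub_cancel_right] at this
    linarith [key k hk a, key k' hk' b]
  have d := (ev k - ev k').le_opNorm h
  rw [sub_apply, Real.norm_eq_abs] at d
  exact d.trans (mul_le_mul_of_nonneg_right c (norm_nonneg h))

end

/-- the dual unit ball with the weak star topology -/
abbrev Ball (X : Type u) [NormedAddCommGroup X] [NormedSpace ℝ X] : Type u :=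
  (WeakDual.toStrongDual ⁻¹' Metric.closedBall (0 : StrongDual ℝ X) 1 : Set (WeakDual ℝ X))

theorem ball_compact : CompactSpace (Ball X) :=
  isCompact_iff_compactSpace.1 (WeakDual.isCompact_closedBall 0 1)

/-- the functional of a point of the dual ball -/
noncomputable def evB (k : Ball X) : X →L[ℝ] ℝ := WeakDual.toStrongDual k.1

theorem evB_cont (x : X) : Continuous fun k : Ball X => evB k x :=
  (WeakDual.eval_continuous x).comp continuous_subtype_val

theorem evB_le (k : Ball X) (h : X) : |evB k h| ≤ ‖h‖ := by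
  have h1 : ‖evB k‖ ≤ 1 := mem_closedBall_zero_iff.1 k.2
  have h2 := (evB k).le_opNorm h
  rw [Real.norm_eq_abs] at h2
  nlinarith [norm_nonneg h]

theorem sg_evB (x : X) : sg evB univ x = ‖x‖ := by
  have := ball_compact (X := X)
  have : Nonempty (Ball X) := ⟨⟨0, by simp⟩⟩
  apply le_antisymm
  · obtain ⟨k, -, h, -⟩ := sg_spec (ev := evB) evB_cont isClosed_univ univ_nonempty x
    exact h ▸ (le_abs_self _).trans (evB_le k x)
  · obtain ⟨g, h1, h2⟩ := exists_dual_vector'' ℝ x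
    have := le_sg (ev := evB) evB_cont isClosed_univ
      (k := ⟨StrongDual.toWeakDual g, by simpa using h1⟩) (mem_univ _) x
    exact le_of_eq_of_le h2.symm this

/-- uniform approximation of the norm by Lipschitz functions of class `C¹` -/
theorem approx_of_diff
    (H : ∀ f : X → ℝ, ConvexOn ℝ univ f → Continuous f → ∃ x, DifferentiableAt ℝ f x)
    {η : ℝ} (hη : 0 < η) :
    ∃ G : X → ℝ, ContDiff ℝ 1 G ∧ LipschitzWith 5 G ∧ ∀ x, |G x - ‖x‖| ≤ η := by
  have := ball_compact (X := X)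
  have : Nonempty (Ball X) := ⟨⟨0, by simp⟩⟩
  obtain ⟨G, h1, h2, h3⟩ := exists_approx evB_cont evB_le (dent_of_diff evB_cont evB_le H) hη
  simp only [sg_evB] at h1
  refine ⟨G, contDiff_of_LA h3, LipschitzWith.of_dist_le_mul fun y z => ?_, fun x => ?_⟩
  · simpa [Real.dist_eq, dist_eq_norm] using h2 y z
  · rw [abs_le]; constructor <;> linarith [(h1 x).1, (h1 x).2]

theorem bump_of_approx {G : X → ℝ} (h1 : ContDiff ℝ 1 G) (h2 : LipschitzWith 5 G)
    (h3 : ∀ x, |G x - ‖x‖| ≤ 1) :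
    ∃ b : X → ℝ, ContDiff ℝ 1 b ∧ (∃ L, LipschitzWith L b) ∧ (tsupport b).Nonempty ∧
      Bornology.IsBounded (tsupport b) := by
  let φ : ContDiffBump (0 : ℝ) := ⟨1, 2, one_pos, by norm_num⟩
  have hφ : ContDiff ℝ 1 φ := φ.contDiff
  obtain ⟨L, hL⟩ := hφ.lipschitzWith_of_hasCompactSupport φ.hasCompactSupport one_ne_zero
  refine ⟨φ ∘ G, hφ.comp h1, ⟨_, hL.comp h2⟩, ⟨0, subset_tsupport _ ?_⟩,
    Bornology.IsBounded.closure ?_⟩
  · have : φ (G 0) = 1 := φ.one_of_mem_closedBall (by simpa [φ] using h3 0)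
    simp [this]
  · refine (Metric.isBounded_closedBall (x := (0 : X)) (r := 3)).subset fun x hx => ?_
    have h4 : G x ∈ Function.support φ := hx
    rw [φ.support_eq] at h4
    have h5 : |G x| < 2 := by simpa [φ] using h4
    have h6 := abs_le.1 (h3 x)
    have h7 := abs_lt.1 h5
    simp only [Metric.mem_closedBall, dist_zero_right]
    linarith [h6.1, h7.2]

/-- the perturbation step of Ekeland and Lebourg -/
theorem exists_super [CompleteSpace X] {b : X → ℝ} (hb : Differentiable ℝ b) {x₀ : X}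
    (h₀ : b x₀ ≠ 0) (hs : Bornology.IsBounded (Function.support b)) {U : Set X} {f : X → ℝ}
    (hU : IsOpen U) (hf : ContinuousOn f U) {a : X} (ha : a ∈ U) {r ε : ℝ} (hr : 0 < r)
    (hε : 0 < ε) : ∃ x, dist x a ≤ r ∧ ∃ (p : X →L[ℝ] ℝ) (ρ : ℝ), 0 < ρ ∧ Metric.ball x ρ ⊆ U ∧
      ∀ h, ‖h‖ < ρ → f (x + h) ≤ f x + p h + ε * ‖h‖ := by
  obtain ⟨R, hR⟩ := hs.subset_closedBall 0
  have hR' : ∀ x, b x ≠ 0 → ‖x‖ ≤ R := fun x hx => by simpa using hR hx
  have hR0 : 0 ≤ R := (norm_nonneg _).trans (hR' x₀ h₀)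
  obtain ⟨s, hs0, hsr, hsU⟩ : ∃ s > 0, s ≤ r ∧ ∀ y ∈ Metric.closedBall a s,
      y ∈ U ∧ |f y - f a| ≤ 1 := by
    have h1 : ∀ᶠ y in 𝓝 a, y ∈ U ∧ |f y - f a| ≤ 1 := by
      filter_upwards [hU.mem_nhds ha, (hf.continuousAt (hU.mem_nhds ha)).eventually
        (Metric.closedBall_mem_nhds (f a) one_pos)] with y h1 h2
      exact ⟨h1, by simpa [Real.dist_eq] using h2⟩
    obtain ⟨s, h2, h3⟩ := Metric.nhds_basis_closedBall.eventually_iff.1 h1
    exact ⟨min s r, lt_min h2 hr, min_le_right _ _, fun y hy =>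
      h3 (Metric.closedBall_subset_closedBall (min_le_left _ _) hy)⟩
  set c : ℝ := (4 * R + 1) / s with hc
  have hc0 : 0 < c := by positivity
  set u : X → ℝ := fun y => b (x₀ + c • (y - a)) ^ 2 / (1 + b (x₀ + c • (y - a)) ^ 2) with hu
  have hud : Differentiable ℝ u := by
    have h1 : Differentiable ℝ fun t : ℝ => t ^ 2 / (1 + t ^ 2) :=
      Differentiable.div (by fun_prop) (by fun_prop) fun x => by positivity
    have h2 : Differentiable ℝ fun y : X => x₀ + c • (y - a) := by fun_prop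
    exact h1.comp (hb.comp h2)
  have hu1 : ∀ x, u x ≤ 1 := fun x => div_le_one_of_le₀ (by linarith) (by positivity)
  have hu0 : 0 < u a := by simp only [hu, sub_self, smul_zero, add_zero]; positivity
  set M := 3 / u a with hM
  have hM0 : 0 < M := by positivity
  have hM1 : M * u a = 3 := by rw [hM]; field_simp
  have : CompleteSpace (Metric.closedBall a s) := Metric.isClosed_closedBall.completeSpace_coe
  have hfc : Continuous fun y : Metric.closedBall a s => f y :=
    (hf.mono fun y hy => (hsU y hy).1).domRestrict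
  obtain ⟨x, -, h1, h2⟩ := ekeland (Y := Metric.closedBall a s) (C := univ) isClosed_univ
    (φ := fun y => f y + M * u y)
    (hfc.add (continuous_const.mul (hud.continuous.comp continuous_subtype_val)))
    (B := f a + 1 + M) (fun y _ => by
      have a1 := (abs_le.1 (hsU y y.2).2).2
      have a2 := mul_le_mul_of_nonneg_left (hu1 y) hM0.le
      linarith) (show 0 < ε / 2 by linarith) (x₀ := ⟨a, Metric.mem_closedBall_self hs0.le⟩)
      (mem_univ _)
  have hxa : ‖x.1 - a‖ ≤ s / 2 := by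
    have a1 : b (x₀ + c • (x.1 - a)) ≠ 0 := fun h => by
      have a2 : u x = 0 := by simp [hu, h]
      have a3 := (abs_le.1 (hsU x x.2).2).2
      simp only [a2, hM1] at h1
      linarith
    have a2 := hR' _ a1
    have a3 := hR' _ h₀
    have a4 : ‖c • (x.1 - a)‖ ≤ 2 * R := by
      have := norm_sub_le (x₀ + c • (x.1 - a)) x₀
      rw [add_sub_cancel_left] at this
      linarith
    rw [norm_smul, Real.norm_eq_abs, abs_of_pos hc0, hc, div_mul_eq_mul_div, div_le_iff₀ hs0] at a4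
    nlinarith [norm_nonneg (x.1 - a)]
  have h3 := (hasFDerivAt_iff_isLittleO_nhds_zero.1 ((hud x).hasFDerivAt.const_mul M)).def
    (show 0 < ε / 2 by linarith)
  obtain ⟨ρ, hρ, h4⟩ := Metric.eventually_nhds_iff.1 h3
  have hin : ∀ h : X, ‖h‖ < min ρ (s / 2) → x.1 + h ∈ Metric.closedBall a s := fun h hh => by
    have := norm_add_le (x.1 - a) h
    rw [mem_closedBall_iff_norm, add_sub_right_comm]
    linarith [(lt_min_iff.1 hh).2]
  refine ⟨x, by rw [dist_eq_norm]; linarith, -(M • fderiv ℝ u x), min ρ (s / 2),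
    lt_min hρ (by linarith), fun y hy => ?_, fun h hh => ?_⟩
  · have := hin (y - x) (mem_ball_iff_norm.1 hy)
    rw [add_sub_cancel] at this
    exact (hsU y this).1
  · have a1 := h4 (y := h) (by simpa using (lt_min_iff.1 hh).1)
    have a2 := h2 ⟨_, hin h hh⟩ (mem_univ _)
    rw [Subtype.dist_eq, dist_eq_norm] at a2
    simp only [sub_add_cancel_left, norm_neg] at a2
    rw [Real.norm_eq_abs] at a1
    have e := (abs_le.1 a1).1
    simp only [neg_apply]
    linarith

/-- points near which the function is linear up to a Lipschitz error of size `c` -/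
def Nr (f : X → ℝ) (c : ℝ) : Set X :=
  {x | ∃ ξ : X →L[ℝ] ℝ, ∀ᶠ p : X × X in 𝓝 (x, x),
    |f p.1 - f p.2 - ξ (p.1 - p.2)| ≤ c * ‖p.1 - p.2‖}

theorem isOpen_Nr (f : X → ℝ) (c : ℝ) : IsOpen (Nr f c) := by
  rw [isOpen_iff_mem_nhds]
  rintro x ⟨ξ, h⟩
  have h2 : Tendsto (fun y : X => (y, y)) (𝓝 x) (𝓝 (x, x)) :=
    (continuous_id.prodMk continuous_id).tendsto' x (x, x) rfl
  filter_upwards [h2.eventually h.eventually_nhds] with y hy
  exact ⟨ξ, hy⟩

theorem mem_Nr {U : Set X} {f : X → ℝ} (hf : ConvexOn ℝ U f) {x : X} {p : X →L[ℝ] ℝ} {ρ ε : ℝ}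
    (hρ : 0 < ρ) (hε : 0 < ε) (hU : Metric.ball x ρ ⊆ U)
    (h : ∀ h, ‖h‖ < ρ → f (x + h) ≤ f x + p h + ε * ‖h‖) : x ∈ Nr f (4 * ε) := by
  have h1 : ConvexOn ℝ (Metric.ball x ρ) fun y => f y + (-p) y + (p x - f x) :=
    ((hf.subset hU (convex_ball x ρ)).add
      ((-p).toLinearMap.convexOn (convex_ball x ρ))).add_const _
  have h2 := h1.lipschitzOnWith_of_abs_le (M := ε * ρ) (show 0 < ρ / 2 by linarith) fun y hy => by
    rw [dist_eq_norm] at hy
    have a1 := h (y - x) hy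
    have a2 := h (x - y) (by rwa [norm_sub_rev])
    have a3 := hf.2 (hU (mem_ball_iff_norm.2 hy))
      (hU (show x + (x - y) ∈ Metric.ball x ρ by
        rw [mem_ball_iff_norm, add_sub_cancel_left, norm_sub_rev]; exact hy))
      (show (0 : ℝ) ≤ 1 / 2 by norm_num) (show (0 : ℝ) ≤ 1 / 2 by norm_num) (by norm_num)
    have a4 : (1 / 2 : ℝ) • y + (1 / 2 : ℝ) • (x + (x - y)) = x := by module
    rw [a4, smul_eq_mul, smul_eq_mul] at a3
    rw [add_sub_cancel, map_sub] at a1
    rw [map_sub, norm_sub_rev] at a2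
    have a5 := mul_le_mul_of_nonneg_left hy.le hε.le
    simp only [neg_apply]
    rw [abs_le]
    constructor <;> linarith
  refine ⟨p, ?_⟩
  have h3 : Metric.ball x (ρ - ρ / 2) ∈ 𝓝 x := Metric.ball_mem_nhds x (by linarith)
  filter_upwards [prod_mem_nhds h3 h3] with q hq
  have a1 := h2.dist_le_mul q.1 hq.1 q.2 hq.2
  rw [Real.coe_toNNReal _ (by positivity), Real.dist_eq, dist_eq_norm] at a1
  have a2 : 2 * (ε * ρ) / (ρ / 2) = 4 * ε := by field_simp; ring
  rw [a2] at a1
  convert a1 using 2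
  simp only [neg_apply, map_sub]
  ring

/-- the theorem of Ekeland and Lebourg -/
theorem asplund_of_bump [CompleteSpace X] {b : X → ℝ} (hb : Differentiable ℝ b) {x₀ : X}
    (h₀ : b x₀ ≠ 0) (hs : Bornology.IsBounded (Function.support b)) {U : Set X} {f : X → ℝ}
    (hU : IsOpen U) (hc : ConvexOn ℝ U f) (hf : ContinuousOn f U) :
    ∃ G : Set X, IsGδ G ∧ G ⊆ U ∧ U ⊆ closure G ∧ ∀ x ∈ G, DifferentiableAt ℝ f x := by
  have h1 : ∀ c > 0, U ⊆ closure (Nr f c) := fun c hc0 a ha => by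
    rw [Metric.mem_closure_iff]
    intro r hr
    obtain ⟨x, hx, p, ρ, hρ, h2, h3⟩ := exists_super hb h₀ hs hU hf ha
      (show 0 < r / 2 by linarith) (show 0 < c / 4 by linarith)
    have := mem_Nr hc hρ (by linarith) h2 h3
    rw [show 4 * (c / 4) = c by ring] at this
    exact ⟨x, this, by rw [dist_comm]; linarith⟩
  have h2 : Dense (⋂ n : ℕ, Nr f (1 * (1 / 2) ^ n) ∪ (closure U)ᶜ) :=
    dense_iInter_of_isOpen (fun n => (isOpen_Nr _ _).union isClosed_closure.isOpen_compl)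
      fun n y => by
        by_cases hy : y ∈ closure U
        · exact closure_mono subset_union_left
            (closure_minimal (h1 _ (by positivity)) isClosed_closure hy)
        · exact subset_closure (Or.inr hy)
  refine ⟨U ∩ ⋂ n : ℕ, Nr f (1 * (1 / 2) ^ n),
    hU.isGδ.inter (IsGδ.iInter_of_isOpen fun n => isOpen_Nr _ _), inter_subset_left,
    (h2.open_subset_closure_inter hU).trans (closure_mono fun y hy => ⟨hy.1, ?_⟩), fun x hx => ?_⟩
  · exact mem_iInter.2 fun n => (mem_iInter.1 hy.2 n).resolve_right fun h => h (subset_closure hy.1)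
  · obtain ⟨ξ, hξ⟩ := LA.limit (F := f) (x := x) zero_le_one fun n => by
      obtain ⟨ξ, hξ⟩ := mem_iInter.1 hx.2 n
      exact ⟨ξ, fun e he => hξ.mono fun p hp =>
        hp.trans (mul_le_mul_of_nonneg_right (by linarith) (norm_nonneg _))⟩
    exact hξ.hasStrict.hasFDerivAt.differentiableAt

end Pool.Agent.P.MP_d06606_an.U
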