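import Pool.Agent.P.MP_d06606_an.Soft

namespace Pool.Agent.P.MP_d06606_an.U

open Filter Topology Set

universe u

/-- a family of functions, each of which is the maximum of functions of the family with a
quarter of its size, where the maximum is detected by locally finitely many jumps -/
structure Sys (X : Type u) [NormedAddCommGroup X] [NormedSpace ℝ X] : Type (u + 2) where
  N : Type u
  d : N → ℝ
  σ : N → X → ℝ
  b : N → X →L[ℝ] ℝ
  I : N → Type (u + 1)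
  S : ∀ n, I n → N
  E : ∀ n, I n → N
  a : ∀ n, I n → ℝ
  d0 : ∀ n, 0 ≤ d n
  lip : ∀ n y z, |σ n y - σ n z - b n (y - z)| ≤ d n * ‖y - z‖
  dS : ∀ n i, d (S n i) ≤ d n / 4
  dE : ∀ n i, d (E n i) ≤ d n
  bS : ∀ n i h, |b (S n i) h - b n h| ≤ d n * ‖h‖
  bE : ∀ n i h, |b (E n i) h - b n h| ≤ d n * ‖h‖
  le : ∀ n i x, σ (S n i) x ≤ σ n x
  ex : ∀ n x, ∃ i, σ (S n i) x = σ n x ∧ 0 < σ (S n i) x - σ (E n i) x + a n i
  fin : ∀ n x δ, 0 < δ → {i | δ < σ (S n i) x - σ (E n i) x + a n i}.Finite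

/-- positive reals -/
abbrev Pos : Type := {η : ℝ // 0 < η}

/-- the scales -/
noncomputable def dl (η : Pos) (m : ℕ) : ℝ := η.1 / (m + 1)

theorem dl_pos (η : Pos) (m : ℕ) : 0 < dl η m := div_pos η.2 (by positivity)

theorem dl_le (η : Pos) (m : ℕ) : dl η m ≤ η.1 :=
  div_le_self η.2.le (by linarith [(Nat.cast_nonneg m : (0 : ℝ) ≤ m)])

theorem dl_small (η : Pos) {t : ℝ} (ht : 0 < t) : ∃ M : ℕ, ∀ m, M ≤ m → dl η m ≤ t := by
  obtain ⟨M, hM⟩ := exists_nat_ge (η.1 / t)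
  refine ⟨M, fun m hm => ?_⟩
  have h1 : (M : ℝ) ≤ m := by exact_mod_cast hm
  rw [dl, div_le_iff₀ (by positivity)]
  rw [div_le_iff₀ ht] at hM
  nlinarith

/-- the precision of the children -/
noncomputable def ch (η : Pos) (m : ℕ) : Pos := ⟨dl η m / 40, by have := dl_pos η m; positivity⟩

namespace Sys
variable {X : Type u} [NormedAddCommGroup X] [NormedSpace ℝ X] (s : Sys X)

/-- the pieces -/
noncomputable def V (f : s.N × Pos × X → ℝ) (n : s.N) (η : Pos) (γ : s.I n × ℕ) (x : X) : ℝ :=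
  f (s.S n γ.1, ch η γ.2, x) + dl η γ.2 / 20 *
    Th ((dl η γ.2)⁻¹ * (f (s.S n γ.1, ch η γ.2, x) - f (s.E n γ.1, ch η γ.2, x) + s.a n γ.1) - 1)

/-- the widths -/
noncomputable def W (n : s.N) (η : Pos) (γ : s.I n × ℕ) : ℝ := dl η γ.2 / 40

/-- the operator -/
noncomputable def T (f : s.N × Pos × X → ℝ) (p : s.N × Pos × X) : ℝ :=
  sm (s.W p.1 p.2.1) (fun γ => s.V f p.1 p.2.1 γ p.2.2) - p.2.1.1 / 10

/-- the admissible families -/
def F : Set (s.N × Pos × X → ℝ) :=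
  {f | ∀ n η, (∀ x, s.σ n x - η.1 ≤ f (n, η, x) ∧ f (n, η, x) ≤ s.σ n x) ∧
    ∀ y z, |f (n, η, y) - f (n, η, z) - s.b n (y - z)| ≤ 2 * s.d n * ‖y - z‖}

theorem W_pos (n : s.N) (η : Pos) (γ : s.I n × ℕ) : 0 < s.W n η γ := by
  have := dl_pos η γ.2
  unfold W; positivity

variable {s} {f g : s.N × Pos × X → ℝ}

theorem V_le (hf : f ∈ s.F) (n : s.N) (η : Pos) (γ : s.I n × ℕ) (x : X) :
    s.V f n η γ x ≤ s.σ n x + dl η γ.2 / 10 := by
  have h1 := ((hf (s.S n γ.1) (ch η γ.2)).1 x).2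
  have h2 := s.le n γ.1 x
  have h3 := dl_pos η γ.2
  have h4 := Th_le ((dl η γ.2)⁻¹ *
    (f (s.S n γ.1, ch η γ.2, x) - f (s.E n γ.1, ch η γ.2, x) + s.a n γ.1) - 1)
  unfold V
  nlinarith

theorem V_le' (hf : f ∈ s.F) (n : s.N) (η : Pos) (x : X) (γ : s.I n × ℕ) :
    s.V f n η γ x ≤ s.σ n x + η.1 / 10 := by
  linarith [V_le hf n η γ x, dl_le η γ.2]

theorem V_le0 (hf : f ∈ s.F) (n : s.N) (η : Pos) (γ : s.I n × ℕ) (x : X)
    (h : s.σ (s.S n γ.1) x - s.σ (s.E n γ.1) x + s.a n γ.1 ≤ dl η γ.2 / 2) :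
    s.V f n η γ x ≤ s.σ n x := by
  have h1 := ((hf (s.S n γ.1) (ch η γ.2)).1 x).2
  have h1' := ((hf (s.E n γ.1) (ch η γ.2)).1 x).1
  have h2 := s.le n γ.1 x
  have h3 := dl_pos η γ.2
  have h5 : (ch η γ.2).1 = dl η γ.2 / 40 := rfl
  unfold V
  rw [Th_of_nonpos]
  · linarith
  · rw [sub_nonpos, inv_mul_le_iff₀ h3]
    linarith

theorem sm_gt (hf : f ∈ s.F) (n : s.N) (η : Pos) (x : X) :
    s.σ n x < sm (s.W n η) (fun γ => s.V f n η γ x) := by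
  obtain ⟨i, h1, h2⟩ := s.ex n x
  obtain ⟨m, hm⟩ := dl_small η (show 0 < (s.σ (s.S n i) x - s.σ (s.E n i) x + s.a n i) / 4 by
    linarith)
  have h3 := hm m le_rfl
  have h4 := le_sm (s.W_pos n η) (V_le' hf n η x) (i, m)
  have h5 : (ch η m).1 = dl η m / 40 := rfl
  have h6 := dl_pos η m
  have h7 := ((hf (s.S n i) (ch η m)).1 x).1
  have h8 := ((hf (s.E n i) (ch η m)).1 x).2
  refine lt_of_lt_of_le ?_ h4
  simp only [V, W]
  rw [Th_of_ge]
  · linarith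
  · rw [le_sub_iff_add_le, le_inv_mul_iff₀ h6]
    linarith

theorem V_lip (hf : f ∈ s.F) (n : s.N) (η : Pos) (γ : s.I n × ℕ) (y z : X) :
    |s.V f n η γ y - s.V f n η γ z - s.b n (y - z)| ≤ 2 * s.d n * ‖y - z‖ := by
  have h1 := abs_le.1 ((hf (s.S n γ.1) (ch η γ.2)).2 y z)
  have h2 := abs_le.1 ((hf (s.E n γ.1) (ch η γ.2)).2 y z)
  have h3 := abs_le.1 (s.bS n γ.1 (y - z))
  have h4 := abs_le.1 (s.bE n γ.1 (y - z))
  have h5 := mul_le_mul_of_nonneg_right (s.dS n γ.1) (norm_nonneg (y - z))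
  have h6 := mul_le_mul_of_nonneg_right (s.dE n γ.1) (norm_nonneg (y - z))
  have h7 := dl_pos η γ.2
  have h0 := mul_nonneg (s.d0 n) (norm_nonneg (y - z))
  set A := f (s.S n γ.1, ch η γ.2, y) - f (s.E n γ.1, ch η γ.2, y) + s.a n γ.1 with hA
  set B := f (s.S n γ.1, ch η γ.2, z) - f (s.E n γ.1, ch η γ.2, z) + s.a n γ.1 with hB
  have h8 : |A - B| ≤ 9 / 2 * (s.d n * ‖y - z‖) := by
    rw [abs_le]; constructor <;> linarith [h1.1, h1.2, h2.1, h2.2, h3.1, h3.2, h4.1, h4.2]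
  have h9 := Th_lip ((dl η γ.2)⁻¹ * A - 1) ((dl η γ.2)⁻¹ * B - 1)
  have h10 : |(dl η γ.2)⁻¹ * A - 1 - ((dl η γ.2)⁻¹ * B - 1)| = (dl η γ.2)⁻¹ * |A - B| := by
    rw [← abs_of_pos (inv_pos.2 h7), ← abs_mul, abs_of_pos (inv_pos.2 h7)]
    congr 1; ring
  have h11 : |dl η γ.2 / 20 * Th ((dl η γ.2)⁻¹ * A - 1) -
      dl η γ.2 / 20 * Th ((dl η γ.2)⁻¹ * B - 1)| ≤ |A - B| / 10 := by
    rw [← mul_sub, abs_mul, abs_of_pos (by positivity : 0 < dl η γ.2 / 20)]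
    calc _ ≤ dl η γ.2 / 20 * (2 * ((dl η γ.2)⁻¹ * |A - B|)) :=
          mul_le_mul_of_nonneg_left (h10 ▸ h9) (by positivity)
      _ = _ := by field_simp; ring
  have h12 := abs_le.1 h11
  simp only [V, ← hA, ← hB]
  rw [abs_le]
  constructor <;> linarith [h1.1, h1.2, h3.1, h3.2, h12.1, h12.2]

theorem ne (n : s.N) : Nonempty (s.I n × ℕ) := ⟨((s.ex n 0).choose, 0)⟩

theorem T_mem (hf : f ∈ s.F) : s.T f ∈ s.F := by
  intro n η
  obtain ⟨γ₀⟩ := ne n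
  refine ⟨fun x => ?_, fun y z => ?_⟩
  · have h1 := sm_gt hf n η x
    have h2 := sm_le (s.W_pos n η) γ₀ (mem_smSet (s.W_pos n η) (V_le' hf n η x))
    have := η.2
    simp only [T]
    constructor <;> linarith
  · have h1 := sm_le_sm (v := fun γ => s.V f n η γ y) (s.W_pos n η) γ₀ (V_le' hf n η z)
      (r := s.b n (y - z) + 2 * s.d n * ‖y - z‖)
      (fun γ => by linarith [(abs_le.1 (V_lip hf n η γ y z)).2])
    have h2 := sm_le_sm (v := fun γ => s.V f n η γ z) (s.W_pos n η) γ₀ (V_le' hf n η y)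
      (r := - s.b n (y - z) + 2 * s.d n * ‖y - z‖)
      (fun γ => by linarith [(abs_le.1 (V_lip hf n η γ y z)).1])
    simp only [T]
    rw [abs_le]
    constructor <;> linarith

theorem V_sub {ρ : ℝ} (hρ : 0 ≤ ρ) (h : ∀ p, |f p - g p| ≤ ρ * p.2.1.1) (n : s.N) (η : Pos)
    (γ : s.I n × ℕ) (x : X) : |s.V f n η γ x - s.V g n η γ x| ≤ ρ / 2 * η.1 := by
  have h1 := abs_le.1 (h (s.S n γ.1, ch η γ.2, x))
  have h2 := abs_le.1 (h (s.E n γ.1, ch η γ.2, x))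
  have h5 : (ch η γ.2).1 = dl η γ.2 / 40 := rfl
  simp only [h5] at h1 h2
  have h7 := dl_pos η γ.2
  have h0 := mul_le_mul_of_nonneg_left (dl_le η γ.2) hρ
  have h0' := mul_nonneg hρ h7.le
  set A := f (s.S n γ.1, ch η γ.2, x) - f (s.E n γ.1, ch η γ.2, x) + s.a n γ.1 with hA
  set B := g (s.S n γ.1, ch η γ.2, x) - g (s.E n γ.1, ch η γ.2, x) + s.a n γ.1 with hB
  have h8 : |A - B| ≤ ρ * dl η γ.2 := by
    rw [abs_le]; constructor <;> linarith [h1.1, h1.2, h2.1, h2.2]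
  have h9 := Th_lip ((dl η γ.2)⁻¹ * A - 1) ((dl η γ.2)⁻¹ * B - 1)
  have h10 : |(dl η γ.2)⁻¹ * A - 1 - ((dl η γ.2)⁻¹ * B - 1)| = (dl η γ.2)⁻¹ * |A - B| := by
    rw [← abs_of_pos (inv_pos.2 h7), ← abs_mul, abs_of_pos (inv_pos.2 h7)]
    congr 1; ring
  have h11 : |dl η γ.2 / 20 * Th ((dl η γ.2)⁻¹ * A - 1) -
      dl η γ.2 / 20 * Th ((dl η γ.2)⁻¹ * B - 1)| ≤ |A - B| / 10 := by
    rw [← mul_sub, abs_mul, abs_of_pos (by positivity : 0 < dl η γ.2 / 20)]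
    calc _ ≤ dl η γ.2 / 20 * (2 * ((dl η γ.2)⁻¹ * |A - B|)) :=
          mul_le_mul_of_nonneg_left (h10 ▸ h9) (by positivity)
      _ = _ := by field_simp; ring
  have h12 := abs_le.1 h11
  simp only [V, ← hA, ← hB]
  rw [abs_le]
  constructor <;> linarith [h1.1, h1.2, h12.1, h12.2]

theorem exists_fix (s : Sys X) : ∃ f ∈ s.F, s.T f = f := by
  refine exists_fixed (fun p => p.2.1.1) s.F s.T (fun p => s.σ p.1 p.2.2) ?_ (fun f => T_mem)
    ?_ ?_ ?_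
  · intro n η
    refine ⟨fun x => ⟨by linarith [η.2], le_rfl⟩, fun y z => (s.lip n y z).trans ?_⟩
    nlinarith [mul_nonneg (s.d0 n) (norm_nonneg (y - z))]
  · intro f g hf hg n η
    refine ⟨fun x => ⟨ge_of_tendsto' (hg _) fun k => ((hf k n η).1 x).1,
      le_of_tendsto' (hg _) fun k => ((hf k n η).1 x).2⟩, fun y z => ?_⟩
    exact le_of_tendsto' (((hg (n, η, y)).sub (hg (n, η, z))).sub_const (s.b n (y - z))).abs
      fun k => (hf k n η).2 y z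
  · rintro f hf g hg ⟨n, η, x⟩
    have h1 := (hf n η).1 x
    have h2 := (hg n η).1 x
    rw [abs_le]
    constructor <;> linarith [h1.1, h1.2, h2.1, h2.2]
  · rintro f hf g hg ρ hρ h ⟨n, η, x⟩
    obtain ⟨γ₀⟩ := ne n
    have h1 := sm_le_sm (v := fun γ => s.V f n η γ x) (s.W_pos n η) γ₀ (V_le' hg n η x)
      (r := ρ / 2 * η.1) (fun γ => by linarith [(abs_le.1 (V_sub hρ h n η γ x)).2])
    have h2 := sm_le_sm (v := fun γ => s.V g n η γ x) (s.W_pos n η) γ₀ (V_le' hf n η x)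
      (r := ρ / 2 * η.1) (fun γ => by linarith [(abs_le.1 (V_sub hρ h n η γ x)).1])
    simp only [T]
    rw [abs_le]
    constructor <;> linarith

theorem V_LA {q : ℝ} (hq : 0 ≤ q)
    (h : ∀ n η x, ∃ ξ, LA (fun y => f (n, η, y)) ξ x (2 * s.d n * q)) (n : s.N) (η : Pos)
    (γ : s.I n × ℕ) (x : X) : ∃ ξ, LA (s.V f n η γ) ξ x (2 * s.d n * (q / 2)) := by
  obtain ⟨ξ, h1⟩ := h (s.S n γ.1) (ch η γ.2) x
  obtain ⟨ζ, h2⟩ := h (s.E n γ.1) (ch η γ.2) x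
  have h7 := dl_pos η γ.2
  have h3 := (((h1.add (h2.smul (-1))).add (LA.const (s.a n γ.1) x)).smul (dl η γ.2)⁻¹).add
    (LA.const (-1) x)
  obtain ⟨f', h4, h5⟩ := Th_strict ((dl η γ.2)⁻¹ * (f (s.S n γ.1, ch η γ.2, x) +
    -1 * f (s.E n γ.1, ch η γ.2, x) + s.a n γ.1) + -1)
  have h6 := h1.add ((h3.comp h5).smul (dl η γ.2 / 20))
  refine ⟨_, (h6.congr (Eventually.of_forall fun y => ?_)).mono ?_⟩
  · simp only [V]
    congr 3
    ring
  · have a1 := mul_le_mul_of_nonneg_right (s.dS n γ.1) hq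
    have a2 := mul_le_mul_of_nonneg_right (s.dE n γ.1) hq
    have a3 := mul_nonneg (s.d0 n) hq
    have a4 := mul_nonneg (s.d0 (s.S n γ.1)) hq
    have a5 := mul_nonneg (s.d0 (s.E n γ.1)) hq
    rw [abs_of_pos (by positivity : 0 < dl η γ.2 / 20), abs_of_pos (inv_pos.2 h7)]
    simp only [abs_neg, abs_one, one_mul, add_zero]
    have e : dl η γ.2 / 20 * (|f'| * ((dl η γ.2)⁻¹ *
        (2 * s.d (s.S n γ.1) * q + 2 * s.d (s.E n γ.1) * q))) =
        |f'| * (s.d (s.S n γ.1) * q + s.d (s.E n γ.1) * q) / 10 := by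
      field_simp; ring
    rw [e]
    have := mul_le_mul_of_nonneg_right h4 (add_nonneg a4 a5)
    linarith

theorem local_eq (hf : f ∈ s.F) (n : s.N) (η : Pos) (x : X) :
    ∃ t : Finset (s.I n × ℕ), ∀ᶠ y in 𝓝 x, ∑ γ ∈ t,
      psi ((s.V f n η γ y - (s.T f (n, η, y) + η.1 / 10)) / s.W n η γ) = 1 := by
  classical
  obtain ⟨γ₀⟩ := ne n
  have hx := sm_gt hf n η x
  set μ := sm (s.W n η) (fun γ => s.V f n η γ x) - s.σ n x with hμ
  have hμ0 : 0 < μ := sub_pos.2 hx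
  obtain ⟨M, hM⟩ := dl_small η hμ0
  refine ⟨(s.fin n x (μ / 4) (by linarith)).toFinset ×ˢ Finset.range M, ?_⟩
  have h1 : ∀ᶠ y in 𝓝 x, s.d n * ‖y - x‖ < μ / 16 := by
    have : Continuous fun y : X => s.d n * ‖y - x‖ := by fun_prop
    exact (this.tendsto' x 0 (by simp)).eventually (gt_mem_nhds (by linarith))
  filter_upwards [h1] with y hy
  have e : s.T f (n, η, y) + η.1 / 10 = sm (s.W n η) (fun γ => s.V f n η γ y) := by simp [T]
  rw [e]
  refine sm_eq (v := fun γ => s.V f n η γ y) (s.W_pos n η) γ₀ (V_le' hf n η y) _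
    (show 0 < μ / 4 by linarith) fun γ hγ => ?_
  have h2 := abs_le.1 ((T_mem hf n η).2 y x)
  have h3 := abs_le.1 (s.lip n y x)
  simp only [T] at h2
  have h4 : s.σ n y + μ / 2 ≤ sm (s.W n η) (fun γ => s.V f n η γ y) := by
    linarith [h2.1, h3.2]
  by_cases hm : dl η γ.2 ≤ μ
  · linarith [V_le hf n η γ y]
  · have h5 : γ.2 < M := by
      by_contra hc
      exact hm (hM _ (not_lt.1 hc))
    have h6 : s.σ (s.S n γ.1) x - s.σ (s.E n γ.1) x + s.a n γ.1 ≤ μ / 4 := by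
      by_contra hc
      exact hγ (Finset.mem_product.2 ⟨by simpa using hc, Finset.mem_range.2 h5⟩)
    have a1 := abs_le.1 (s.lip (s.S n γ.1) y x)
    have a2 := abs_le.1 (s.lip (s.E n γ.1) y x)
    have a3 := abs_le.1 (s.bS n γ.1 (y - x))
    have a4 := abs_le.1 (s.bE n γ.1 (y - x))
    have a5 := mul_le_mul_of_nonneg_right (s.dS n γ.1) (norm_nonneg (y - x))
    have a6 := mul_le_mul_of_nonneg_right (s.dE n γ.1) (norm_nonneg (y - x))
    have a7 := mul_nonneg (s.d0 n) (norm_nonneg (y - x))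
    have := V_le0 hf n η γ y (by linarith [a1.2, a2.1, a3.2, a4.1, not_le.1 hm])
    linarith

theorem main (s : Sys X) (n : s.N) {η : ℝ} (hη : 0 < η) :
    ∃ G : X → ℝ, (∀ x, s.σ n x - η ≤ G x ∧ G x ≤ s.σ n x) ∧
      (∀ y z, |G y - G z - s.b n (y - z)| ≤ 2 * s.d n * ‖y - z‖) ∧ ∀ x, ∃ ξ, LA G ξ x 0 := by
  obtain ⟨f, hf, hT⟩ := s.exists_fix
  have key : ∀ k : ℕ, ∀ n η x, ∃ ξ, LA (fun y => f (n, η, y)) ξ x (2 * s.d n * (1 / 2) ^ k) := by
    intro k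
    induction k with
    | zero => exact fun n η x => ⟨s.b n, by simpa using LA.of_lip (hf n η).2 x⟩
    | succ k ih =>
      intro n η x
      obtain ⟨t, ht⟩ := local_eq hf n η x
      rw [hT] at ht
      obtain ⟨ξ, hξ⟩ := LA_implicit (s.W_pos n η) t (G := fun y => f (n, η, y) + η.1 / 10)
        ((LA.of_lip (hf n η).2 x).add (LA.const (η.1 / 10) x))
        (fun γ _ => V_LA (by positivity) ih n η γ x) ht
      refine ⟨_, ((hξ.add (LA.const (-(η.1 / 10)) x)).congr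
        (Eventually.of_forall fun y => by simp)).mono (le_of_eq ?_)⟩
      rw [pow_succ]; ring
  exact ⟨fun y => f (n, ⟨η, hη⟩, y), (hf n ⟨η, hη⟩).1, (hf n ⟨η, hη⟩).2,
    fun x => LA.limit (by linarith [s.d0 n]) fun k => key k n ⟨η, hη⟩ x⟩

end Sys

end Pool.Agent.P.MP_d06606_an.U
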